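import Mathlib

/-!
# Local lifts along a sofic approximation
-/

set_option autoImplicit false

namespace Pool.Agent.Y20.EA

open scoped Pointwise

/-- Sofic groups. -/
def IsSofic (K : Type) [Group K] : Prop :=
  ∀ (E : Finset K) (δ : ℝ), 0 < δ → ∃ (n : ℕ) (σ : K → Equiv.Perm (Fin n)), 0 < n ∧
    (∀ x ∈ E, ∀ y ∈ E, (Nat.card {i // σ (x * y) i ≠ σ x (σ y i)} : ℝ) ≤ δ * n) ∧
    ∀ x ∈ E, x ≠ 1 → (Nat.card {i // σ x i = i} : ℝ) ≤ δ * n

variable {K : Type} [Group K]

/-- The good points. -/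
def Good {Q : Type} (E : Finset K) (σ : K → Equiv.Perm Q) (i : Q) : Prop :=
  (∀ x ∈ E, ∀ y ∈ E, σ (x * y) i = σ x (σ y i)) ∧ ∀ x ∈ E, x ≠ 1 → σ x i ≠ i

theorem Good.one {Q : Type} {E : Finset K} {σ : K → Equiv.Perm Q} {i : Q} (h : Good E σ i)
    (h1 : (1 : K) ∈ E) : σ 1 i = i := by
  have h2 := h.1 1 h1 1 h1
  rw [mul_one] at h2
  exact ((σ 1).injective h2).symm

variable [DecidableEq K]

/-- The increasing sequence of finite sets. -/
def ball (S : Finset K) : ℕ → Finset K
  | 0 => {1}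
  | n + 1 => ball S n ∪ ball S n * ((insert 1 S * ball S n)⁻¹ * (insert 1 S * ball S n))

theorem ball_mono (S : Finset K) {i j : ℕ} (h : i ≤ j) : ball S i ⊆ ball S j := by
  induction h with
  | refl => exact Finset.Subset.refl _
  | step _ ih => exact ih.trans Finset.subset_union_left

theorem one_mem_ball (S : Finset K) (j : ℕ) : (1 : K) ∈ ball S j :=
  ball_mono S (Nat.zero_le j) (by simp [ball])

/-- The finite set on which the sofic approximation has to be good. -/
def big (S : Finset K) (R : ℕ) : Finset K :=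
  (insert 1 S * ball S R) ∪ (insert 1 S * ball S R)⁻¹ ∪
    (insert 1 S * ball S R)⁻¹ * (insert 1 S * ball S R)

section

variable {S : Finset K} {R : ℕ}

theorem mem_W {j : ℕ} (hj : j ≤ R) {w : K} (hw : w ∈ insert 1 S * ball S j) :
    w ∈ insert 1 S * ball S R := Finset.mul_subset_mul_left (ball_mono S hj) hw

theorem big1 {j : ℕ} (hj : j ≤ R) {w : K} (hw : w ∈ insert 1 S * ball S j) : w ∈ big S R :=
  Finset.mem_union_left _ (Finset.mem_union_left _ (mem_W hj hw))

theorem big2 {j : ℕ} (hj : j ≤ R) {w : K} (hw : w ∈ insert 1 S * ball S j) : w⁻¹ ∈ big S R :=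
  Finset.mem_union_left _ (Finset.mem_union_right _ (Finset.inv_mem_inv (mem_W hj hw)))

theorem big3 {j : ℕ} (hj : j ≤ R) {w w' : K} (hw : w ∈ insert 1 S * ball S j)
    (hw' : w' ∈ insert 1 S * ball S j) : w'⁻¹ * w ∈ big S R :=
  Finset.mem_union_right _ (Finset.mul_mem_mul (Finset.inv_mem_inv (mem_W hj hw')) (mem_W hj hw))

theorem ball_sub {j : ℕ} {w : K} (hw : w ∈ ball S j) : w ∈ insert 1 S * ball S j := by
  simpa using Finset.mul_mem_mul (Finset.mem_insert_self 1 S) hw

theorem S_sub {j : ℕ} {x w : K} (hx : x ∈ S) (hw : w ∈ ball S j) : x * w ∈ insert 1 S * ball S j :=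
  Finset.mul_mem_mul (Finset.mem_insert_of_mem hx) hw

theorem S_sub' {x : K} (hx : x ∈ S) : x ∈ insert 1 S * ball S R := by
  have := S_sub (j := R) hx (one_mem_ball S R)
  rwa [mul_one] at this

theorem one_big : (1 : K) ∈ big S R := big1 le_rfl (ball_sub (one_mem_ball S R))

end

/-- Covering by few well separated points. -/
theorem exists_reps (S : Finset K) (R : ℕ) {Q : Type} [DecidableEq Q] (σ : K → Equiv.Perm Q)
    (A : Finset Q) : ∀ (n : ℕ) (B : Finset Q) (j : ℕ), B.card ≤ n → B.Nonempty → j + n ≤ R →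
    (∀ b ∈ B, Good (big S R) σ b) →
    (∀ g ∈ A, ∃ b ∈ B, ∃ β ∈ ball S j, g = σ β b) →
    ∃ (C : Finset Q) (i : ℕ), i ≤ j + n ∧ (∀ b ∈ C, Good (big S R) σ b) ∧
      (∀ g ∈ A, ∃ b ∈ C, ∃ β ∈ ball S i, g = σ β b) ∧
      (∀ b ∈ C, ∀ b' ∈ C, ∀ w ∈ insert 1 S * ball S i, ∀ w' ∈ insert 1 S * ball S i,
        σ w b = σ w' b' → b = b') := by
  intro n
  induction n with
  | zero =>
    intro B j h0 hne _ _ _
    have := hne.card_pos
    omega
  | succ n ih =>
    intro B j hB hne hjR hgood hcov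
    have hj : j ≤ R := by omega
    by_cases hsep : ∀ b ∈ B, ∀ b' ∈ B, ∀ w ∈ insert 1 S * ball S j, ∀ w' ∈ insert 1 S * ball S j,
        σ w b = σ w' b' → b = b'
    · exact ⟨B, j, by omega, hgood, hcov, hsep⟩
    · push Not at hsep
      obtain ⟨b, hb, b', hb', w, hw, w', hw', heq, hbb⟩ := hsep
      have e1 : σ (w'⁻¹ * w') b' = σ w'⁻¹ (σ w' b') :=
        (hgood b' hb').1 _ (big2 hj hw') _ (big1 hj hw')
      rw [inv_mul_cancel, (hgood b' hb').one one_big, ← heq] at e1
      have e2 : σ (w'⁻¹ * w) b = σ w'⁻¹ (σ w b) := (hgood b hb).1 _ (big2 hj hw') _ (big1 hj hw)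
      have e3 : b' = σ (w'⁻¹ * w) b := by rw [e1, e2]
      obtain ⟨C, i, hi, h0, h1, h2⟩ := ih (B.erase b') (j + 1)
        (by rw [Finset.card_erase_of_mem hb']; omega)
        ⟨b, Finset.mem_erase.2 ⟨hbb, hb⟩⟩ (by omega)
        (fun c hc => hgood c (Finset.mem_of_mem_erase hc)) (by
          intro g hg
          obtain ⟨c, hc, β, hβ, hgc⟩ := hcov g hg
          by_cases hcb : c = b'
          · subst hcb
            refine ⟨b, Finset.mem_erase.2 ⟨hbb, hb⟩, β * (w'⁻¹ * w), ?_, ?_⟩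
            · refine Finset.mem_union_right _ (Finset.mul_mem_mul hβ
                (Finset.mul_mem_mul (Finset.inv_mem_inv hw') hw))
            · rw [(hgood b hb).1 β (big1 hj (ball_sub hβ)) _ (big3 hj hw hw'), ← e3]
              exact hgc
          · exact ⟨c, Finset.mem_erase.2 ⟨hcb, hc⟩, β, ball_mono S (Nat.le_succ j) hβ, hgc⟩)
      exact ⟨C, i, by omega, h0, h1, h2⟩

/-- The lift. -/
theorem exists_lift (S : Finset K) (R : ℕ) (Q : Type) (σ : K → Equiv.Perm Q) (A : Finset Q)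
    (hA : A.card ≤ R) : ∃ F : Q → K, ∀ g ∈ A, Good (big S R) σ g → ∀ x ∈ S,
      F (σ x g) = x * F g := by
  classical
  rcases (A.filter (Good (big S R) σ)).eq_empty_or_nonempty with h0 | hne
  · exact ⟨fun _ => 1, fun g hg hgood => absurd (Finset.mem_filter.2 ⟨hg, hgood⟩)
      (by rw [h0]; exact Finset.notMem_empty _)⟩
  have hcard : (A.filter (Good (big S R) σ)).card ≤ R := (Finset.card_filter_le _ _).trans hA
  obtain ⟨C, i, hi, hgood, hcov, hsep⟩ := exists_reps S R σ (A.filter (Good (big S R) σ)) R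
    (A.filter (Good (big S R) σ)) 0 hcard hne (by omega)
    (fun b hb => (Finset.mem_filter.1 hb).2) (by
      intro g hg
      exact ⟨g, hg, 1, by simp [ball], ((Finset.mem_filter.1 hg).2.one one_big).symm⟩)
  have hi' : i ≤ R := by omega
  have hinj : ∀ b ∈ C, ∀ w ∈ insert 1 S * ball S i, ∀ w' ∈ insert 1 S * ball S i,
      σ w b = σ w' b → w = w' := by
    intro b hb w hw w' hw' h
    have e1 : σ (w'⁻¹ * w') b = σ w'⁻¹ (σ w' b) :=
      (hgood b hb).1 _ (big2 hi' hw') _ (big1 hi' hw')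
    rw [inv_mul_cancel, (hgood b hb).one one_big, ← h] at e1
    have e2 : σ (w'⁻¹ * w) b = σ w'⁻¹ (σ w b) := (hgood b hb).1 _ (big2 hi' hw') _ (big1 hi' hw)
    by_contra hne'
    refine (hgood b hb).2 (w'⁻¹ * w) (big3 hi' hw hw') ?_ ?_
    · intro h1
      exact hne' (inv_mul_eq_one.1 h1).symm
    · rw [e2, ← e1]
  let P : Q → K → Prop := fun h w => w ∈ insert 1 S * ball S i ∧ ∃ b ∈ C, σ w b = h
  have huniq : ∀ h w w', P h w → P h w' → w = w' := by
    rintro h w w' ⟨hw, b, hb, e⟩ ⟨hw', b', hb', e'⟩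
    have h1 := hsep b hb b' hb' w hw w' hw' (e.trans e'.symm)
    subst h1
    exact hinj b hb w hw w' hw' (e.trans e'.symm)
  refine ⟨fun h => Classical.epsilon (P h), fun g hg hgg x hx => ?_⟩
  obtain ⟨b, hb, β, hβ, hgb⟩ := hcov g (Finset.mem_filter.2 ⟨hg, hgg⟩)
  have h1 : P g β := ⟨ball_sub hβ, b, hb, hgb.symm⟩
  have h2 : P (σ x g) (x * β) := ⟨S_sub hx hβ, b, hb, by
    rw [hgb, (hgood b hb).1 x (big1 le_rfl (S_sub' hx)) β (big1 hi' (ball_sub hβ))]⟩
  show Classical.epsilon (P (σ x g)) = x * Classical.epsilon (P g)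
  rw [huniq _ _ _ (Classical.epsilon_spec ⟨_, h2⟩) h2, huniq _ _ _ (Classical.epsilon_spec ⟨_, h1⟩) h1]

/-- The number of bad points of a sofic approximation. -/
theorem sofic_good (hK : IsSofic K) (E : Finset K) (δ : ℝ) (hδ : 0 < δ) :
    ∃ (n : ℕ) (σ : K → Equiv.Perm (Fin n)), 0 < n ∧
      (Nat.card {i // ¬ Good E σ i} : ℝ) ≤ δ * n := by
  classical
  have hN : (0 : ℝ) < E.card * E.card + E.card + 1 := by positivity
  obtain ⟨n, σ, hn, h1, h2⟩ := hK E (δ / (E.card * E.card + E.card + 1)) (by positivity)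
  refine ⟨n, σ, hn, ?_⟩
  rw [Nat.card_eq_fintype_card, Fintype.card_subtype]
  have hsub : (Finset.univ.filter fun i => ¬ Good E σ i) ⊆
      ((E ×ˢ E).biUnion fun p => Finset.univ.filter fun i => σ (p.1 * p.2) i ≠ σ p.1 (σ p.2 i)) ∪
      ((E.erase 1).biUnion fun x => Finset.univ.filter fun i => σ x i = i) := by
    intro i hi
    have hi' : ¬ Good E σ i := (Finset.mem_filter.1 hi).2
    unfold Good at hi'
    rw [not_and_or] at hi'
    rcases hi' with h | h
    · push Not at h
      obtain ⟨x, hx, y, hy, hxy⟩ := h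
      refine Finset.mem_union_left _ (Finset.mem_biUnion.2 ⟨(x, y), Finset.mem_product.2 ⟨hx, hy⟩,
        Finset.mem_filter.2 ⟨Finset.mem_univ _, hxy⟩⟩)
    · push Not at h
      obtain ⟨x, hx, hx1, hxi⟩ := h
      refine Finset.mem_union_right _ (Finset.mem_biUnion.2 ⟨x, Finset.mem_erase.2 ⟨hx1, hx⟩,
        Finset.mem_filter.2 ⟨Finset.mem_univ _, hxi⟩⟩)
  set δ' : ℝ := δ / (E.card * E.card + E.card + 1) with hδ'
  have c1 : ((((E ×ˢ E).biUnion fun p => Finset.univ.filter fun i =>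
      σ (p.1 * p.2) i ≠ σ p.1 (σ p.2 i)).card : ℕ) : ℝ) ≤ (E.card * E.card) * (δ' * n) := by
    calc _ ≤ ((∑ p ∈ E ×ˢ E, (Finset.univ.filter fun i =>
          σ (p.1 * p.2) i ≠ σ p.1 (σ p.2 i)).card : ℕ) : ℝ) := by
            exact_mod_cast Finset.card_biUnion_le
      _ ≤ ∑ _p ∈ E ×ˢ E, δ' * n := by
            push_cast
            refine Finset.sum_le_sum fun p hp => ?_
            have := h1 p.1 (Finset.mem_product.1 hp).1 p.2 (Finset.mem_product.1 hp).2
            rw [Nat.card_eq_fintype_card, Fintype.card_subtype] at this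
            exact this
      _ = _ := by
            rw [Finset.sum_const, Finset.card_product, nsmul_eq_mul]
            push_cast
            ring
  have c2 : ((((E.erase 1).biUnion fun x => Finset.univ.filter fun i =>
      σ x i = i).card : ℕ) : ℝ) ≤ E.card * (δ' * n) := by
    calc _ ≤ ((∑ x ∈ E.erase 1, (Finset.univ.filter fun i => σ x i = i).card : ℕ) : ℝ) := by
            exact_mod_cast Finset.card_biUnion_le
      _ ≤ ∑ _x ∈ E.erase 1, δ' * n := by
            push_cast
            refine Finset.sum_le_sum fun x hx => ?_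
            have := h2 x (Finset.mem_of_mem_erase hx) (Finset.ne_of_mem_erase hx)
            rw [Nat.card_eq_fintype_card, Fintype.card_subtype] at this
            exact this
      _ ≤ _ := by
            rw [Finset.sum_const, nsmul_eq_mul]
            have : ((E.erase 1).card : ℝ) ≤ E.card := by
              exact_mod_cast Finset.card_le_card (Finset.erase_subset _ _)
            have h3 : 0 ≤ δ' * n := by positivity
            gcongr
  have c3 : (((Finset.univ.filter fun i => ¬ Good E σ i).card : ℕ) : ℝ) ≤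
      (E.card * E.card) * (δ' * n) + E.card * (δ' * n) := by
    refine le_trans ?_ (add_le_add c1 c2)
    exact_mod_cast (Finset.card_le_card hsub).trans (Finset.card_union_le _ _)
  refine c3.trans ?_
  have h4 : δ' * (E.card * E.card + E.card + 1) = δ := by
    rw [hδ']; field_simp
  have h5 : 0 ≤ δ' * n := by positivity
  calc _ ≤ (δ' * (E.card * E.card + E.card + 1)) * n := by nlinarith
    _ = δ * n := by rw [h4]

end Pool.Agent.Y20.EA
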