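import Mathlib
import Pool.Agent.W335.EA.Norm
import Pool.Agent.W335.EA.Conc
import Pool.Agent.Y20.EA.Lift

/-!
# An overgroup with a concentrated, almost equivariant finite set, for sofic groups
-/

set_option autoImplicit false

namespace Pool.Agent.Y20.EA

open Pool.Agent.W335.EA (IsNorm Sub nX nX_le_D nX_norm nX_const nX_star nZ nZ_norm nZ_const nZ_le
  nZ_one_coord conc)

variable {K : Type} [Group K]

theorem nZ_le_sum {K' : Type} [Group K'] {ν : K' → ℝ} {m : ℕ} (hm : 1 ≤ m) (f : Fin m → K')
    (bad : Finset (Fin m)) (r D : ℝ) (hr : 0 ≤ r) (h1 : ∀ z ∉ bad, ν (f z) ≤ r)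
    (h2 : ∀ z, ν (f z) ≤ D) : nZ ν m f ≤ r + D * (bad.card / m) := by
  classical
  have hm' : (0 : ℝ) < m := by exact_mod_cast hm
  unfold nZ
  rw [div_le_iff₀ hm']
  have h3 : ∀ z, ν (f z) ≤ r + if z ∈ bad then D else 0 := by
    intro z
    by_cases hz : z ∈ bad
    · rw [if_pos hz]
      have := h2 z
      linarith
    · rw [if_neg hz, add_zero]
      exact h1 z hz
  calc ∑ z, ν (f z) ≤ ∑ z, (r + if z ∈ bad then D else 0) := Finset.sum_le_sum fun z _ => h3 z
    _ = m * r + bad.card * D := by
      rw [Finset.sum_add_distrib, Finset.sum_const, Finset.card_univ, Fintype.card_fin,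
        nsmul_eq_mul, ← Finset.sum_filter, Finset.sum_const, nsmul_eq_mul]
      congr 3
      simp
    _ = (r + D * (bad.card / m)) * m := by field_simp

theorem key (hK : IsSofic K) (ν : K → ℝ) (hν : IsNorm K ν) (D : ℝ) (hD : 0 < D)
    (hνD : ∀ a, ν a ≤ D) (S : Finset K) (k : ℕ) (ε : ℝ) (hε : 0 < ε) :
    ∃ (ι κ : Type) (nL : (ι → κ → K) → ℝ) (_ : IsNorm (ι → κ → K) nL) (_ : ∀ a, nL a ≤ D)
      (_ : ∀ x, nL (fun _ _ => x) = ν x) (Ω : Type) (_ : Finite Ω) (_ : Nonempty Ω)
      (v : Ω → ι → κ → K) (act : K → Ω → Ω) (τ : ℝ), 0 < τ ∧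
      ∀ H : Fin k → Ω → ℝ, (∀ j t t', |H j t - H j t'| ≤ nL ((v t)⁻¹ * v t') + τ) →
        ∃ t, ∀ x ∈ S, nL (((fun _ _ => x) * v t)⁻¹ * v (act x t)) ≤ ε ∧
          ∀ j, |H j (act x t) - H j t| ≤ ε := by
  classical
  -- the number of steps
  obtain ⟨R, hR⟩ := exists_nat_gt (D / (ε / 2))
  have hR0 : (0 : ℝ) < R := lt_of_le_of_lt (by positivity) hR
  have hR1 : 1 ≤ R := by exact_mod_cast (by exact_mod_cast hR0 : 0 < R)
  have hDR : D / R ≤ ε / 2 := by
    rw [div_lt_iff₀ (by positivity)] at hR
    rw [div_le_iff₀ hR0]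
    linarith
  set E : Finset K := big S R with hE
  obtain ⟨q, σ, hq, hbad⟩ := sofic_good hK E (ε / (8 * D)) (by positivity)
  have hlift : ∀ A : Sub (Fin q) R, ∃ F : Fin q → K, ∀ g ∈ A.1, Good E σ g → ∀ x ∈ S,
      F (σ x g) = x * F g := fun A => exists_lift S R (Fin q) σ A.1 A.2
  choose F hF using hlift
  have : Nonempty (Fin q) := ⟨⟨0, hq⟩⟩
  -- the number of copies
  obtain ⟨m, hm⟩ := exists_nat_gt (k * (S.card + 1) * (4 * D ^ 2) / ((ε / 2) ^ 2 / 2))
  have hm0 : (0 : ℝ) < m := lt_of_le_of_lt (by positivity) hm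
  have hm1 : 1 ≤ m := by exact_mod_cast (by exact_mod_cast hm0 : 0 < m)
  have hX : IsNorm (Sub (Fin q) R → K) (nX ν D) := nX_norm hν hD.le hR1
  have hL : IsNorm (Fin m → Sub (Fin q) R → K) (nZ (nX ν D) m) := nZ_norm hX
  let w : Fin q → Sub (Fin q) R → K := fun g A => F A g
  let act : K → (Fin m → Fin q) → (Fin m → Fin q) := fun x t z => if x = 1 then t z else σ x (t z)
  let v : (Fin m → Fin q) → (Fin m → Sub (Fin q) R → K) := fun t z => w (t z)
  have hcoord : ∀ (t : Fin m → Fin q) (z : Fin m) (b : Fin q),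
      nZ (nX ν D) m ((v (Function.update t z b))⁻¹ * v t) ≤ D / m := by
    intro t z b
    refine nZ_one_coord hX _ z D (fun z' hz' => ?_) (nX_le_D _ _ _)
    show (w (Function.update t z b z'))⁻¹ * w (t z') = 1
    rw [Function.update_of_ne hz', inv_mul_cancel]
  refine ⟨Fin m, Sub (Fin q) R, nZ (nX ν D) m, hL,
    fun a => nZ_le hm1 a D fun z => nX_le_D _ _ _, fun x => ?_, Fin m → Fin q, inferInstance,
    inferInstance, v, act, D / m, by positivity, ?_⟩
  · rw [nZ_const hm1, nX_const hν hνD]
  · intro H hH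
    have hdiff : ∀ j t z b, |H j (Function.update t z b) - H j t| ≤ 2 * D / m := by
      intro j t z b
      refine (hH j _ _).trans ?_
      have := hcoord t z b
      have e : 2 * D / (m : ℝ) = D / m + D / m := by ring
      rw [e]
      linarith
    have hM : ∀ j, ∃ M : ℝ, ∑ t, (H j t - M) ^ 2 ≤
        m * (2 * D / m) ^ 2 * (Fintype.card (Fin q) : ℝ) ^ m := fun j =>
      conc (Fin q) (by positivity) m (H j) (hdiff j)
    choose M hM using hM
    set W : ℝ := (Fintype.card (Fin q) : ℝ) ^ m with hW
    have hW0 : 0 < W := by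
      rw [hW]
      have : 0 < Fintype.card (Fin q) := Fintype.card_pos
      positivity
    have hcardΩ : (Fintype.card (Fin m → Fin q) : ℝ) = W := by
      rw [hW]
      simp
    have hbij : ∀ x, Function.Bijective (act x) := by
      intro x
      by_cases hx : x = 1
      · have : act x = id := by
          funext t z
          simp [act, hx]
        rw [this]
        exact Function.bijective_id
      · refine ⟨fun t t' h => ?_, fun t => ⟨fun z => (σ x).symm (t z), ?_⟩⟩
        · funext z
          have h1 := congrFun h z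
          simp only [act, hx, if_false] at h1
          exact (σ x).injective h1
        · funext z
          simp [act, hx]
    have hact : ∀ x j, ∑ t, (H j (act x t) - M j) ^ 2 = ∑ t, (H j t - M j) ^ 2 := fun x j =>
      Function.Bijective.sum_comp (hbij x) (fun t => (H j t - M j) ^ 2)
    -- the bad coordinates
    let bd : (Fin m → Fin q) → Finset (Fin m) := fun t =>
      Finset.univ.filter fun z => ¬ Good E σ (t z)
    have hbd : ∑ t, (((bd t).card : ℝ) / m) ≤ (ε / (8 * D)) * W := by
      have h1 : ∀ t, (((bd t).card : ℝ)) = ∑ z, (if ¬ Good E σ (t z) then (1 : ℝ) else 0) := by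
        intro t
        show (((Finset.univ.filter fun z => ¬ Good E σ (t z)).card : ℕ) : ℝ) = _
        rw [Finset.card_filter]
        push_cast
        rfl
      have h2 : ∀ z : Fin m, ∑ t : Fin m → Fin q, (if ¬ Good E σ (t z) then (1 : ℝ) else 0) ≤
          (ε / (8 * D)) * W := by
        intro z
        have h3 : ∑ t : Fin m → Fin q, (if ¬ Good E σ (t z) then (1 : ℝ) else 0) =
            (Nat.card {i // ¬ Good E σ i} : ℝ) * (q : ℝ) ^ (m - 1) := by
          rw [Nat.card_eq_fintype_card, Fintype.card_subtype, Finset.sum_ite, Finset.sum_const_zero,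
            add_zero, Finset.sum_const, nsmul_eq_mul, mul_one]
          have h4 : (Finset.univ.filter fun t : Fin m → Fin q => ¬ Good E σ (t z)) =
              Fintype.piFinset fun z' => if z' = z then
                (Finset.univ.filter fun i => ¬ Good E σ i) else Finset.univ := by
            ext t
            simp only [Finset.mem_filter, Finset.mem_univ, true_and, Fintype.mem_piFinset]
            constructor
            · intro ht z'
              by_cases hz : z' = z
              · subst hz
                rw [if_pos rfl]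
                exact Finset.mem_filter.2 ⟨Finset.mem_univ _, ht⟩
              · rw [if_neg hz]
                exact Finset.mem_univ _
            · intro ht
              have := ht z
              rw [if_pos rfl] at this
              exact (Finset.mem_filter.1 this).2
          rw [h4, Fintype.card_piFinset]
          have h5 : ∏ z' : Fin m, (if z' = z then
              (Finset.univ.filter fun i => ¬ Good E σ i) else
                (Finset.univ : Finset (Fin q))).card =
              (Finset.univ.filter fun i => ¬ Good E σ i).card * q ^ (m - 1) := by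
            rw [← Finset.mul_prod_erase Finset.univ _ (Finset.mem_univ z), if_pos rfl]
            congr 1
            rw [Finset.prod_congr rfl (g := fun _ => q)]
            · rw [Finset.prod_const, Finset.card_erase_of_mem (Finset.mem_univ z),
                Finset.card_univ, Fintype.card_fin]
            · intro z' hz'
              rw [if_neg (Finset.ne_of_mem_erase hz'), Finset.card_univ, Fintype.card_fin]
          rw [h5]
          push_cast
          rfl
        rw [h3]
        have h6 : W = (q : ℝ) * (q : ℝ) ^ (m - 1) := by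
          rw [hW, Fintype.card_fin, ← pow_succ', Nat.sub_add_cancel hm1]
        rw [h6]
        calc (Nat.card {i // ¬ Good E σ i} : ℝ) * (q : ℝ) ^ (m - 1) ≤
            (ε / (8 * D) * q) * (q : ℝ) ^ (m - 1) := by gcongr
          _ = _ := by ring
      calc ∑ t, (((bd t).card : ℝ) / m) = (∑ t, ((bd t).card : ℝ)) / m := by
            rw [Finset.sum_div]
        _ = (∑ z : Fin m, ∑ t : Fin m → Fin q, (if ¬ Good E σ (t z) then (1 : ℝ) else 0)) / m := by
            rw [Finset.sum_comm]
            congr 1
            exact Finset.sum_congr rfl fun t _ => h1 t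
        _ ≤ (∑ _z : Fin m, (ε / (8 * D)) * W) / m := by
            gcongr with z
            exact h2 z
        _ = (ε / (8 * D)) * W := by
            rw [Finset.sum_const, Finset.card_univ, Fintype.card_fin, nsmul_eq_mul]
            field_simp
    -- averaging
    have htot : ∑ t, (∑ j, ∑ x ∈ insert 1 S, (H j (act x t) - M j) ^ 2 +
        (ε / 2) ^ 2 * (2 * D / ε) * (((bd t).card : ℝ) / m)) <
        ∑ _t : Fin m → Fin q, (ε / 2) ^ 2 := by
      rw [Finset.sum_add_distrib, ← Finset.mul_sum]
      have h1 : ∑ t, ∑ j, ∑ x ∈ insert 1 S, (H j (act x t) - M j) ^ 2 =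
          ∑ j, ∑ x ∈ insert 1 S, ∑ t, (H j (act x t) - M j) ^ 2 := by
        rw [Finset.sum_comm]
        refine Finset.sum_congr rfl fun j _ => ?_
        rw [Finset.sum_comm]
      rw [h1]
      have h2 : ∑ j, ∑ x ∈ insert 1 S, ∑ t, (H j (act x t) - M j) ^ 2 ≤
          ∑ _j : Fin k, ∑ _x ∈ insert 1 S, m * (2 * D / m) ^ 2 * W := by
        refine Finset.sum_le_sum fun j _ => Finset.sum_le_sum fun x _ => ?_
        rw [hact]
        exact hM j
      have h3 : (((insert 1 S).card : ℝ) ≤ S.card + 1) := by
        exact_mod_cast Finset.card_insert_le 1 S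
      have h4 : (m : ℝ) * (2 * D / m) ^ 2 = 4 * D ^ 2 / m := by field_simp; ring
      have h7 : ∑ j, ∑ x ∈ insert 1 S, ∑ t, (H j (act x t) - M j) ^ 2 < W * ((ε / 2) ^ 2 / 2) := by
        refine lt_of_le_of_lt h2 ?_
        rw [Finset.sum_const, Finset.sum_const, Finset.card_univ,
          Fintype.card_fin, nsmul_eq_mul, nsmul_eq_mul]
        rw [h4]
        have h5 : (k : ℝ) * (((insert 1 S).card : ℝ) * (4 * D ^ 2 / m * W)) ≤
            k * ((S.card + 1) * (4 * D ^ 2 / m * W)) := by gcongr
        refine lt_of_le_of_lt h5 ?_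
        have h6 : (k : ℝ) * (S.card + 1) * (4 * D ^ 2) / m < (ε / 2) ^ 2 / 2 := by
          rw [div_lt_iff₀ (by positivity)] at hm
          rw [div_lt_iff₀ hm0]
          linarith
        calc (k : ℝ) * ((S.card + 1) * (4 * D ^ 2 / m * W)) =
            W * (k * (S.card + 1) * (4 * D ^ 2) / m) := by ring
          _ < W * ((ε / 2) ^ 2 / 2) := by gcongr
      have h8 : (ε / 2) ^ 2 * (2 * D / ε) * ∑ t, (((bd t).card : ℝ) / m) ≤
          W * ((ε / 2) ^ 2 / 2) := by
        calc _ ≤ (ε / 2) ^ 2 * (2 * D / ε) * ((ε / (8 * D)) * W) := by gcongr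
          _ = W * ((ε / 2) ^ 2 / 4) := by field_simp; ring
          _ ≤ W * ((ε / 2) ^ 2 / 2) := by
            have : (ε / 2) ^ 2 / 4 ≤ (ε / 2) ^ 2 / 2 := by
              have : 0 ≤ (ε / 2) ^ 2 := by positivity
              linarith
            gcongr
      rw [Finset.sum_const, Finset.card_univ, nsmul_eq_mul, hcardΩ]
      have h9 : W * ((ε / 2) ^ 2 / 2) + W * ((ε / 2) ^ 2 / 2) = W * (ε / 2) ^ 2 := by ring
      linarith
    obtain ⟨t, -, ht⟩ := Finset.exists_lt_of_sum_lt htot
    have hpos1 : 0 ≤ ∑ j, ∑ x ∈ insert 1 S, (H j (act x t) - M j) ^ 2 :=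
      Finset.sum_nonneg fun j _ => Finset.sum_nonneg fun x _ => sq_nonneg _
    have hpos2 : 0 ≤ (ε / 2) ^ 2 * (2 * D / ε) * (((bd t).card : ℝ) / m) := by positivity
    have hone : ∀ y ∈ insert 1 S, ∀ j, |H j (act y t) - M j| ≤ ε / 2 := by
      intro y hy j
      have h1 : (H j (act y t) - M j) ^ 2 ≤
          ∑ j, ∑ x ∈ insert 1 S, (H j (act x t) - M j) ^ 2 := by
        refine le_trans ?_ (Finset.single_le_sum
          (f := fun j => ∑ x ∈ insert 1 S, (H j (act x t) - M j) ^ 2)
          (fun j _ => Finset.sum_nonneg fun x _ => sq_nonneg _) (Finset.mem_univ j))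
        exact Finset.single_le_sum (f := fun x => (H j (act x t) - M j) ^ 2)
          (fun x _ => sq_nonneg _) hy
      exact abs_le_of_sq_le_sq (h1.trans (by linarith)) (by positivity)
    have hbdt : D * (((bd t).card : ℝ) / m) ≤ ε / 2 := by
      have h1 : (ε / 2) ^ 2 * (2 * D / ε) * (((bd t).card : ℝ) / m) < (ε / 2) ^ 2 := by linarith
      have h2 : (2 * D / ε) * (((bd t).card : ℝ) / m) < 1 := by
        have h3 : 0 < (ε / 2) ^ 2 := by positivity
        by_contra hcon
        push Not at hcon
        have h4 : (ε / 2) ^ 2 * 1 ≤ (ε / 2) ^ 2 * ((2 * D / ε) * (((bd t).card : ℝ) / m)) := by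
          gcongr
        linarith
      have h3 : (2 * D / ε) * (((bd t).card : ℝ) / m) = (D * (((bd t).card : ℝ) / m)) / (ε / 2) := by
        field_simp
      rw [h3, div_lt_one (by positivity)] at h2
      exact h2.le
    refine ⟨t, fun x hx => ⟨?_, fun j => ?_⟩⟩
    · refine (nZ_le_sum hm1 _ (bd t) (ε / 2) D (by positivity) (fun z hz => ?_)
        (fun z => nX_le_D _ _ _)).trans (by linarith)
      have hgood : Good E σ (t z) := by
        by_contra hng
        exact hz (Finset.mem_filter.2 ⟨Finset.mem_univ _, hng⟩)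
      refine le_trans (nX_star hD.le hν hR1 _ (t z) fun A hA => ?_) hDR
      show (x * F A (t z))⁻¹ * F A (act x t z) = 1
      by_cases hx1 : x = 1
      · have : act x t z = t z := by simp [act, hx1]
        rw [this, hx1, one_mul, inv_mul_cancel]
      · have : act x t z = σ x (t z) := by simp [act, hx1]
        rw [this, hF A (t z) hA hgood x hx, inv_mul_cancel]
    · have h1 := hone 1 (Finset.mem_insert_self _ _) j
      have h2 := hone x (Finset.mem_insert_of_mem hx) j
      have h3 : act 1 t = t := by
        funext z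
        simp [act]
      rw [h3] at h1
      have h4 := abs_le.1 h1
      have h5 := abs_le.1 h2
      exact abs_le.2 ⟨by linarith, by linarith⟩

end Pool.Agent.Y20.EA
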