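import Mathlib
import Pool.Agent.W335.EA.Final
import Pool.Agent.Y20.EA.Key

/-!
# Metrics with the criterion are generic: sofic groups with room over a subgroup
-/

set_option autoImplicit false

namespace Pool.Agent.Y20.EA

open Set Filter Topology
open Pool.Agent.W335.EA (IsNorm IsBI Crit isBI_of_norm norm_of_isBI exists_box isOpen_crit)

/-- Room over a subgroup. -/
def HasRoom (K : Type) [Group K] (Γ : Subgroup K) : Prop :=
  ∀ (A : Finset K) (r : ℕ), ∃ g : Fin r → K, ∀ k : Fin r → K, ∃ φ : K →* K,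
    (∀ a ∈ Γ, φ a = a) ∧ (∀ a ∈ A, φ a = a) ∧ ∀ j, φ (g j) = k j

variable {K : Type} [Group K]

/-- Every bi-invariant metric can be approximated by metrics with the criterion, without a change
on the subgroup. -/
theorem approx (hK : IsSofic K) (Γ : Subgroup K) (hΓ : HasRoom K Γ)
    (d₀ : K → K → ℝ) (hd₀ : IsBI d₀)
    (hpos : ∀ g h, d₀ g h = 0 → g = h) (D : ℝ) (hD : 1 ≤ D)
    (A : Finset (K × K)) (hA : ∀ p ∈ A, d₀ p.1 p.2 ≤ D) (η : ℝ) (hη : 0 < η)
    (F : Finset K) (k : ℕ) (ε : ℝ) (hε : 0 < ε) :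
    ∃ d : K → K → ℝ, IsBI d ∧ (∀ g h, d g h = 0 → g = h) ∧
      (∀ g h, d g h ≤ D) ∧ (∀ p ∈ A, |d p.1 p.2 - d₀ p.1 p.2| < η) ∧ Crit d F k ε ∧
      ∀ a ∈ Γ, ∀ b ∈ Γ, d₀ a b ≤ 1 → d a b = d₀ a b := by
  classical
  have hD0 : 0 < D := by linarith
  set ν : K → ℝ := fun a => min (d₀ 1 a) D with hνdef
  have hν : IsNorm K ν := norm_of_isBI hd₀ hD0.le
  obtain ⟨ι, κ, nL, hL, hLD, hc, Ω, _, _, v, act, τ, hτ, hconc⟩ :=
    key hK ν hν D hD0 (fun a => min_le_right _ _) F k (ε / 4) (by positivity)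
  have : Fintype Ω := Fintype.ofFinite Ω
  obtain ⟨g₀, hg₀⟩ := hΓ (F ∪ A.image (fun p => p.1⁻¹ * p.2)) (Fintype.card Ω)
  have hroom : ∀ (z : ι) (B : κ), ∃ φ : K →* K, (∀ a ∈ Γ, φ a = a) ∧
      (∀ a ∈ F ∪ A.image (fun p => p.1⁻¹ * p.2), φ a = a) ∧
      ∀ j, φ (g₀ j) = v ((Fintype.equivFin Ω).symm j) z B := fun z B =>
    hg₀ fun j => v ((Fintype.equivFin Ω).symm j) z B
  choose φ hφ1 hφ2 hφ3 using hroom
  let θ : K →* (ι → κ → K) := Pi.monoidHom fun z => Pi.monoidHom fun B => φ z B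
  have hθ : ∀ a z B, θ a z B = φ z B a := fun _ _ _ => rfl
  have hθΓ : ∀ a ∈ Γ, θ a = fun _ _ => a := by
    intro a ha
    funext z B
    rw [hθ, hφ1 z B a ha]
  have hθc : ∀ a ∈ F ∪ A.image (fun p => p.1⁻¹ * p.2), θ a = fun _ _ => a := by
    intro a ha
    funext z B
    rw [hθ, hφ2 z B a ha]
  let gen : Ω → K := fun t => g₀ (Fintype.equivFin Ω t)
  have hgen : ∀ t, θ (gen t) = v t := by
    intro t
    funext z B
    rw [hθ, hφ3, Equiv.symm_apply_apply]
  -- the new norm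
  obtain ⟨δ, hδ0, hδτ, hδε, hδη, hδ1⟩ : ∃ δ : ℝ, 0 < δ ∧ δ ≤ τ ∧ δ ≤ ε / 4 ∧ δ * D < η ∧ δ ≤ 1 := by
    refine ⟨min (min τ (ε / 4)) (min (η / (2 * D)) 1), by positivity, ?_, ?_, ?_, ?_⟩
    · exact (min_le_left _ _).trans (min_le_left _ _)
    · exact (min_le_left _ _).trans (min_le_right _ _)
    · have h1 : min (min τ (ε / 4)) (min (η / (2 * D)) 1) ≤ η / (2 * D) :=
        (min_le_right _ _).trans (min_le_left _ _)
      calc min (min τ (ε / 4)) (min (η / (2 * D)) 1) * D ≤ η / (2 * D) * D := by gcongr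
        _ = η / 2 := by field_simp
        _ < η := by linarith
    · exact (min_le_right _ _).trans (min_le_right _ _)
  have hν1 : IsNorm K fun a => min (d₀ 1 a) 1 := norm_of_isBI hd₀ zero_le_one
  let μ : K → ℝ := fun a => (1 - δ) * nL (θ a) + δ * min (d₀ 1 a) 1
  have hμ : IsNorm K μ := by
    refine ⟨?_, fun a => ?_, fun a => ?_, fun a b => ?_, fun a b => ?_⟩
    · show (1 - δ) * nL (θ 1) + δ * min (d₀ 1 1) 1 = 0
      have := hν1.one
      rw [map_one, hL.one, this, mul_zero, mul_zero, add_zero]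
    · have h1 := hL.nonneg (θ a)
      have h2 := hν1.nonneg a
      have h3 : 0 ≤ 1 - δ := by linarith
      exact add_nonneg (mul_nonneg h3 h1) (mul_nonneg hδ0.le h2)
    · show (1 - δ) * nL (θ a⁻¹) + δ * min (d₀ 1 a⁻¹) 1 = _
      have := hν1.inv a
      rw [map_inv, hL.inv, this]
    · have h1 := hL.mul (θ a) (θ b)
      have h2 := hν1.mul a b
      have h3 : 0 ≤ 1 - δ := by linarith
      show (1 - δ) * nL (θ (a * b)) + δ * min (d₀ 1 (a * b)) 1 ≤ _
      rw [map_mul]
      calc _ ≤ (1 - δ) * (nL (θ a) + nL (θ b)) + δ * (min (d₀ 1 a) 1 + min (d₀ 1 b) 1) := by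
            gcongr
        _ = _ := by ring
    · show (1 - δ) * nL (θ (b * a * b⁻¹)) + δ * min (d₀ 1 (b * a * b⁻¹)) 1 = _
      have := hν1.conj a b
      rw [map_mul, map_mul, map_inv, hL.conj, this]
  have hμle : ∀ a, μ a ≤ nL (θ a) + δ := by
    intro a
    have h1 := hL.nonneg (θ a)
    have h2 : min (d₀ 1 a) 1 ≤ 1 := min_le_right _ _
    show (1 - δ) * nL (θ a) + δ * min (d₀ 1 a) 1 ≤ _
    nlinarith
  have hshift : ∀ a b, d₀ 1 (a⁻¹ * b) = d₀ a b := by
    intro a b
    have := hd₀.left 1 (a⁻¹ * b) a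
    rw [mul_one, mul_inv_cancel_left] at this
    exact this.symm
  refine ⟨fun g h => μ (g⁻¹ * h), isBI_of_norm hμ, fun g h hgh => ?_, fun g h => ?_, fun p hp => ?_,
    ?_, fun a ha b hb hab => ?_⟩
  · have h1 := hL.nonneg (θ (g⁻¹ * h))
    have h2 := hν1.nonneg (g⁻¹ * h)
    have h3 : (1 - δ) * nL (θ (g⁻¹ * h)) + δ * min (d₀ 1 (g⁻¹ * h)) 1 = 0 := hgh
    have h4 : 0 ≤ (1 - δ) * nL (θ (g⁻¹ * h)) := mul_nonneg (by linarith) h1
    have h5 : min (d₀ 1 (g⁻¹ * h)) 1 = 0 := by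
      have h6 : δ * min (d₀ 1 (g⁻¹ * h)) 1 ≤ 0 := by linarith
      have h7 : 0 ≤ δ * min (d₀ 1 (g⁻¹ * h)) 1 := mul_nonneg hδ0.le h2
      have h8 : δ * min (d₀ 1 (g⁻¹ * h)) 1 = 0 := le_antisymm h6 h7
      rcases mul_eq_zero.1 h8 with h | h
      · linarith
      · exact h
    have h6 : d₀ 1 (g⁻¹ * h) = 0 := by
      rcases min_choice (d₀ 1 (g⁻¹ * h)) 1 with h | h
      · rw [← h]; exact h5
      · rw [h] at h5; norm_num at h5
    have h7 := hpos _ _ h6
    exact (inv_mul_eq_one.1 h7.symm)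
  · have h1 := hLD (θ (g⁻¹ * h))
    have h2 : min (d₀ 1 (g⁻¹ * h)) 1 ≤ D := (min_le_right _ _).trans hD
    have h3 : 0 ≤ 1 - δ := by linarith
    calc (1 - δ) * nL (θ (g⁻¹ * h)) + δ * min (d₀ 1 (g⁻¹ * h)) 1 ≤ (1 - δ) * D + δ * D := by gcongr
      _ = D := by ring
  · have h1 : θ (p.1⁻¹ * p.2) = fun _ _ => p.1⁻¹ * p.2 :=
      hθc _ (Finset.mem_union_right _ (Finset.mem_image_of_mem _ hp))
    have h2 : d₀ 1 (p.1⁻¹ * p.2) = d₀ p.1 p.2 := hshift _ _
    have h3 : nL (θ (p.1⁻¹ * p.2)) = d₀ p.1 p.2 := by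
      rw [h1, hc]
      show min (d₀ 1 (p.1⁻¹ * p.2)) D = _
      rw [h2, min_eq_left (hA p hp)]
    show |(1 - δ) * nL (θ (p.1⁻¹ * p.2)) + δ * min (d₀ 1 (p.1⁻¹ * p.2)) 1 - d₀ p.1 p.2| < η
    rw [h3, h2]
    have h4 : 0 ≤ d₀ p.1 p.2 := hd₀.nonneg _ _
    have h5 : min (d₀ p.1 p.2) 1 ≤ d₀ p.1 p.2 := min_le_left _ _
    have h6 : 0 ≤ min (d₀ p.1 p.2) 1 := le_min h4 zero_le_one
    have h7 := hA p hp
    have h8 : (1 - δ) * d₀ p.1 p.2 + δ * min (d₀ p.1 p.2) 1 - d₀ p.1 p.2 =
        -(δ * (d₀ p.1 p.2 - min (d₀ p.1 p.2) 1)) := by ring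
    rw [h8, abs_neg, abs_of_nonneg (mul_nonneg hδ0.le (by linarith))]
    calc δ * (d₀ p.1 p.2 - min (d₀ p.1 p.2) 1) ≤ δ * D := by gcongr; linarith
      _ < η := hδη
  · intro h h01 hlip
    obtain ⟨t, ht⟩ := hconc (fun j t => h (j, gen t)) (fun j t t' => by
      refine (hlip j (gen t) (gen t')).trans ?_
      refine (hμle _).trans ?_
      rw [map_mul, map_inv, hgen, hgen]
      linarith)
    refine ⟨gen t, fun x hx j => ?_⟩
    have h1 := (ht x hx).2 j
    have h2 : |h (j, x * gen t) - h (j, gen (act x t))| ≤ ε / 4 + ε / 4 := by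
      refine (hlip j _ _).trans ((hμle _).trans ?_)
      have h3 := (ht x hx).1
      rw [map_mul, map_inv, map_mul, hgen, hgen, hθc x (Finset.mem_union_left _ hx)]
      linarith
    have h3 := abs_le.1 h1
    have h4 := abs_le.1 h2
    exact abs_lt.2 ⟨by linarith, by linarith⟩
  · show (1 - δ) * nL (θ (a⁻¹ * b)) + δ * min (d₀ 1 (a⁻¹ * b)) 1 = d₀ a b
    rw [hθΓ _ (Γ.mul_mem (Γ.inv_mem ha) hb), hc, hshift]
    show (1 - δ) * min (d₀ 1 (a⁻¹ * b)) D + δ * min (d₀ a b) 1 = d₀ a b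
    rw [hshift, min_eq_left (hab.trans hD), min_eq_left hab]
    ring

variable {p : (K → K → ℝ) → Prop} {T : Set (K → K → ℝ)}

/-- The space of bi-invariant metrics (in a closed set) is Polish. -/
theorem polish [Countable K] (hT : IsClosed T)
    (hp : ∀ d, p d ↔ IsBI d ∧ (∀ g h, d g h = 0 → g = h) ∧ d ∈ T) : PolishSpace {d // p d} := by
  classical
  let f : {d // p d} → (K → K → ℝ) × (K → K → ℝ) := fun x => (x.1, fun g h => (x.1 g h)⁻¹)
  have hcont : Continuous f := by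
    refine continuous_subtype_val.prodMk (continuous_pi fun g => continuous_pi fun h => ?_)
    have h1 : Continuous fun x : {d // p d} => x.1 g h :=
      (continuous_apply h).comp ((continuous_apply g).comp continuous_subtype_val)
    by_cases hgh : g = h
    · subst hgh
      have h2 : (fun x : {d // p d} => (x.1 g g)⁻¹) = fun _ => 0 := by
        funext x
        rw [((hp x.1).1 x.2).1.self, inv_zero]
      rw [h2]
      exact continuous_const
    · exact h1.inv₀ fun x hx => hgh (((hp x.1).1 x.2).2.1 g h hx)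
  have hemb : IsEmbedding f := by
    refine IsEmbedding.of_comp hcont continuous_fst ?_
    exact IsEmbedding.subtypeVal
  have hcl : IsClosed (range f) := by
    have hr : range f = {q : (K → K → ℝ) × (K → K → ℝ) | q.1 ∈ T} ∩
        ((⋂ g, {q | q.1 g g = 0}) ∩ ((⋂ g, {q | q.2 g g = 0}) ∩
        ((⋂ g, ⋂ h, {q | q.1 g h = q.1 h g}) ∩
        ((⋂ g, ⋂ h, ⋂ k, {q | q.1 g k ≤ q.1 g h + q.1 h k}) ∩
        ((⋂ g, ⋂ h, ⋂ k, {q | q.1 (k * g) (k * h) = q.1 g h}) ∩
        ((⋂ g, ⋂ h, ⋂ k, {q | q.1 (g * k) (h * k) = q.1 g h}) ∩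
        (⋂ g, ⋂ h, {q | g ≠ h → q.1 g h * q.2 g h = 1}))))))) := by
      ext q
      constructor
      · rintro ⟨x, rfl⟩
        obtain ⟨hB, h0, hxT⟩ := (hp x.1).1 x.2
        refine ⟨hxT, mem_iInter.2 fun g => hB.self g, mem_iInter.2 fun g => ?_,
          mem_iInter.2 fun g => mem_iInter.2 fun h => hB.symm g h,
          mem_iInter.2 fun g => mem_iInter.2 fun h => mem_iInter.2 fun k => hB.tri g h k,
          mem_iInter.2 fun g => mem_iInter.2 fun h => mem_iInter.2 fun k => hB.left g h k,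
          mem_iInter.2 fun g => mem_iInter.2 fun h => mem_iInter.2 fun k => hB.right g h k,
          mem_iInter.2 fun g => mem_iInter.2 fun h => fun hgh => ?_⟩
        · show (x.1 g g)⁻¹ = 0
          rw [hB.self, inv_zero]
        · show x.1 g h * (x.1 g h)⁻¹ = 1
          exact mul_inv_cancel₀ fun h1 => hgh (h0 g h h1)
      · rintro ⟨h1, h2, h3, h4, h5, h6, h7, h8⟩
        have h8' : ∀ g h, g ≠ h → q.1 g h * q.2 g h = 1 := fun g h =>
          mem_iInter.1 (mem_iInter.1 h8 g) h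
        refine ⟨⟨q.1, (hp q.1).2 ⟨⟨fun g => mem_iInter.1 h2 g,
          fun g h => mem_iInter.1 (mem_iInter.1 h4 g) h,
          fun g h k => mem_iInter.1 (mem_iInter.1 (mem_iInter.1 h5 g) h) k,
          fun g h k => mem_iInter.1 (mem_iInter.1 (mem_iInter.1 h6 g) h) k,
          fun g h k => mem_iInter.1 (mem_iInter.1 (mem_iInter.1 h7 g) h) k⟩, fun g h hgh => ?_,
          h1⟩⟩, ?_⟩
        · by_contra hne
          have := h8' g h hne
          rw [hgh, zero_mul] at this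
          exact zero_ne_one this
        · refine Prod.ext rfl ?_
          funext g h
          show (q.1 g h)⁻¹ = q.2 g h
          by_cases hgh : g = h
          · subst hgh
            have e1 : q.1 g g = 0 := mem_iInter.1 h2 g
            have e2 : q.2 g g = 0 := mem_iInter.1 h3 g
            rw [e1, e2, inv_zero]
          · exact inv_eq_of_mul_eq_one_right (h8' g h hgh)
    rw [hr]
    refine (hT.preimage continuous_fst).inter ?_
    refine (isClosed_iInter fun g => isClosed_eq (by fun_prop) (by fun_prop)).inter ?_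
    refine (isClosed_iInter fun g => isClosed_eq (by fun_prop) (by fun_prop)).inter ?_
    refine (isClosed_iInter fun g => isClosed_iInter fun h =>
      isClosed_eq (by fun_prop) (by fun_prop)).inter ?_
    refine (isClosed_iInter fun g => isClosed_iInter fun h => isClosed_iInter fun k =>
      isClosed_le (by fun_prop) (by fun_prop)).inter ?_
    refine (isClosed_iInter fun g => isClosed_iInter fun h => isClosed_iInter fun k =>
      isClosed_eq (by fun_prop) (by fun_prop)).inter ?_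
    refine (isClosed_iInter fun g => isClosed_iInter fun h => isClosed_iInter fun k =>
      isClosed_eq (by fun_prop) (by fun_prop)).inter ?_
    refine isClosed_iInter fun g => isClosed_iInter fun h => ?_
    by_cases hgh : g = h
    · have : {q : (K → K → ℝ) × (K → K → ℝ) | g ≠ h → q.1 g h * q.2 g h = 1} = univ := by
        ext q
        constructor
        · intro _; trivial
        · intro _ h1; exact absurd hgh h1
      rw [this]
      exact isClosed_univ
    · have : {q : (K → K → ℝ) × (K → K → ℝ) | g ≠ h → q.1 g h * q.2 g h = 1} =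
          {q | q.1 g h * q.2 g h = 1} := by
        ext q
        constructor
        · intro h1; exact h1 hgh
        · intro h1 _; exact h1
      rw [this]
      exact isClosed_eq (by fun_prop) (by fun_prop)
  have hclemb : IsClosedEmbedding f := ⟨hemb, hcl⟩
  exact hclemb.polishSpace

/-- The metrics which satisfy the criterion are generic. -/
theorem generic [Countable K] (hK : IsSofic K) (Γ : Subgroup K) (hΓ : HasRoom K Γ)
    (hT : IsClosed T)
    (hp : ∀ d, p d ↔ IsBI d ∧ (∀ g h, d g h = 0 → g = h) ∧ d ∈ T)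
    (happ : ∀ d₀, p d₀ → ∀ A : Finset (K × K), ∃ D : ℝ, 1 ≤ D ∧
      (∀ q ∈ A, d₀ q.1 q.2 ≤ D) ∧ ∀ d, (∀ g h, d g h ≤ D) →
        (∀ a ∈ Γ, ∀ b ∈ Γ, d₀ a b ≤ 1 → d a b = d₀ a b) → d ∈ T) :
    ∀ᶠ x : {d // p d} in residual {d // p d}, ∀ F k ε, 0 < ε → Crit x.1 F k ε := by
  classical
  have hpol := polish hT hp
  have : BaireSpace {d // p d} := inferInstance
  let V : Finset K × ℕ × ℕ → Set {d // p d} := fun i =>
    {x | Crit x.1 i.1 i.2.1 (1 / ((i.2.2 : ℝ) + 1))}
  have hVopen : ∀ i, IsOpen (V i) := fun i => (isOpen_crit _ _ _).preimage continuous_subtype_val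
  have hVdense : ∀ i, Dense (V i) := by
    intro i x
    rw [mem_closure_iff]
    intro U hU hxU
    obtain ⟨O, hO, rfl⟩ := isOpen_induced_iff.1 hU
    let cur : (K × K → ℝ) → (K → K → ℝ) := fun f g h => f (g, h)
    have hcur : Continuous cur :=
      continuous_pi fun g => continuous_pi fun h => continuous_apply (g, h)
    obtain ⟨I, r, hr, hI⟩ := exists_box (cur ⁻¹' O) (hO.preimage hcur) (fun q => x.1 q.1 q.2) hxU
    obtain ⟨D, hD, hD1, hD2⟩ := happ x.1 x.2 I
    obtain ⟨hB, h0, -⟩ := (hp x.1).1 x.2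
    obtain ⟨d, hd1, hd2, hd3, hd4, hd5, hd6⟩ := approx hK Γ hΓ x.1 hB h0 D hD I hD1 r hr i.1 i.2.1
      (1 / ((i.2.2 : ℝ) + 1)) (by positivity)
    refine ⟨⟨d, (hp d).2 ⟨hd1, hd2, hD2 d hd3 hd6⟩⟩, ?_, hd5⟩
    exact hI (fun q => d q.1 q.2) hd4
  have hset : {x : {d // p d} | ∀ F k ε, 0 < ε → Crit x.1 F k ε} = ⋂ i, V i := by
    ext x
    constructor
    · intro hx
      exact mem_iInter.2 fun i => hx _ _ _ (by positivity)
    · intro hx F k ε hε h h01 hlip
      obtain ⟨n, hn⟩ := exists_nat_one_div_lt hε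
      obtain ⟨g, hg⟩ := mem_iInter.1 hx (F, k, n) h h01 hlip
      exact ⟨g, fun y hy j => (hg y hy j).trans hn⟩
  show {x : {d // p d} | ∀ F k ε, 0 < ε → Crit x.1 F k ε} ∈ residual {d // p d}
  rw [hset]
  exact residual_of_dense_Gδ (IsGδ.iInter_of_isOpen hVopen) (dense_iInter_of_isOpen hVopen hVdense)

/-- Residually finite groups are sofic. -/
theorem sofic_of_rf (h : ∀ x : K, x ≠ 1 → ∃ (Q : Type) (_ : Group Q) (_ : Finite Q) (q : K →* Q),
    q x ≠ 1) : IsSofic K := by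
  classical
  intro E δ hδ
  have h' : ∀ x : (E.erase 1 : Finset K), ∃ (Q : Type) (_ : Group Q) (_ : Finite Q) (q : K →* Q),
      q x.1 ≠ 1 := fun x => h x.1 (Finset.ne_of_mem_erase x.2)
  choose Q hg hfin q hq using h'
  let P : Type := ∀ x : (E.erase 1 : Finset K), Q x
  let _ : Group P := Pi.group
  have : Finite P := Pi.finite
  let _ : Fintype P := Fintype.ofFinite P
  let π : K →* P := Pi.monoidHom fun x => q x
  let e : P ≃ Fin (Fintype.card P) := Fintype.equivFin P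
  refine ⟨Fintype.card P, fun x => e.permCongr (Equiv.mulLeft (π x)), Fintype.card_pos, ?_, ?_⟩
  · intro x _ y _
    have h0 : IsEmpty {i // (e.permCongr (Equiv.mulLeft (π (x * y)))) i ≠
        (e.permCongr (Equiv.mulLeft (π x))) ((e.permCongr (Equiv.mulLeft (π y))) i)} := by
      refine ⟨fun i => i.2 ?_⟩
      simp [Equiv.permCongr_apply, mul_assoc]
    rw [Nat.card_of_isEmpty]
    push_cast
    positivity
  · intro x hx hx1
    have h0 : IsEmpty {i // (e.permCongr (Equiv.mulLeft (π x))) i = i} := by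
      refine ⟨fun i => ?_⟩
      have h1 := i.2
      rw [Equiv.permCongr_apply, Equiv.apply_eq_iff_eq_symm_apply] at h1
      have h2 : π x * e.symm i.1 = e.symm i.1 := h1
      have h3 : π x = 1 := by
        have := congrArg (fun z => z * (e.symm i.1)⁻¹) h2
        simpa using this
      exact hq ⟨x, Finset.mem_erase.2 ⟨hx1, hx⟩⟩ (congrFun h3 ⟨x, Finset.mem_erase.2 ⟨hx1, hx⟩⟩)
    rw [Nat.card_of_isEmpty]
    push_cast
    positivity

/-- Relatively free groups of infinite rank have room. -/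
theorem room_of_relFree (x : ℕ → K) (hx : Subgroup.closure (range x) = ⊤)
    (hfree : ∀ f : ℕ → K, ∃ φ : K →* K, ∀ i, φ (x i) = f i) : HasRoom K ⊥ := by
  classical
  -- every element is fixed by the endomorphisms that fix an initial segment of the basis
  have hsup : ∀ a : K, ∃ n : ℕ, ∀ φ : K →* K, (∀ i < n, φ (x i) = x i) → φ a = a := by
    intro a
    have ha : a ∈ Subgroup.closure (range x) := by rw [hx]; trivial
    induction ha using Subgroup.closure_induction with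
    | mem a ha =>
      obtain ⟨i, rfl⟩ := ha
      exact ⟨i + 1, fun φ hφ => hφ i (Nat.lt_succ_self i)⟩
    | one => exact ⟨0, fun φ _ => map_one φ⟩
    | mul a b _ _ iha ihb =>
      obtain ⟨n, hn⟩ := iha
      obtain ⟨m, hm⟩ := ihb
      refine ⟨max n m, fun φ hφ => ?_⟩
      rw [map_mul, hn φ fun i hi => hφ i (lt_of_lt_of_le hi (le_max_left _ _)),
        hm φ fun i hi => hφ i (lt_of_lt_of_le hi (le_max_right _ _))]
    | inv a _ iha =>
      obtain ⟨n, hn⟩ := iha
      exact ⟨n, fun φ hφ => by rw [map_inv, hn φ hφ]⟩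
  have hsup' : ∀ A : Finset K, ∃ n : ℕ, ∀ φ : K →* K, (∀ i < n, φ (x i) = x i) →
      ∀ a ∈ A, φ a = a := by
    intro A
    induction A using Finset.induction_on with
    | empty => exact ⟨0, by simp⟩
    | insert a s _ ih =>
      obtain ⟨n, hn⟩ := ih
      obtain ⟨m, hm⟩ := hsup a
      refine ⟨max n m, fun φ hφ b hb => ?_⟩
      rcases Finset.mem_insert.1 hb with rfl | hb
      · exact hm φ fun i hi => hφ i (lt_of_lt_of_le hi (le_max_right _ _))
      · exact hn φ (fun i hi => hφ i (lt_of_lt_of_le hi (le_max_left _ _))) b hb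
  intro A r
  obtain ⟨n, hn⟩ := hsup' A
  refine ⟨fun j => x (n + j), fun k => ?_⟩
  obtain ⟨φ, hφ⟩ := hfree fun i => if i < n then x i else
    if h : i - n < r then k ⟨i - n, h⟩ else 1
  refine ⟨φ, fun a ha => ?_, hn φ fun i hi => by rw [hφ, if_pos hi], fun j => ?_⟩
  · rw [Subgroup.mem_bot.1 ha, map_one]
  · rw [hφ, if_neg (by omega)]
    have h1 : n + (j : ℕ) - n = j := by omega
    have h2 : n + (j : ℕ) - n < r := by rw [h1]; exact j.2
    rw [dif_pos h2]
    congr 1
    exact Fin.ext h1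

/-- The free product of a group and a free group of infinite rank has room over the group. -/
theorem room_coprod (Γ : Type) [Group Γ] :
    HasRoom (Monoid.Coprod Γ (FreeGroup ℕ)) (Monoid.Coprod.inl : Γ →* _).range := by
  classical
  let inl : Γ →* Monoid.Coprod Γ (FreeGroup ℕ) := Monoid.Coprod.inl
  let inr : FreeGroup ℕ →* Monoid.Coprod Γ (FreeGroup ℕ) := Monoid.Coprod.inr
  have hsup : ∀ a : Monoid.Coprod Γ (FreeGroup ℕ), ∃ n : ℕ,
      ∀ φ : Monoid.Coprod Γ (FreeGroup ℕ) →* Monoid.Coprod Γ (FreeGroup ℕ),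
      (∀ c, φ (inl c) = inl c) → (∀ i < n, φ (inr (FreeGroup.of i)) = inr (FreeGroup.of i)) →
      φ a = a := by
    intro a
    induction a using Monoid.Coprod.induction_on with
    | inl c => exact ⟨0, fun φ h1 _ => h1 c⟩
    | inr w =>
      obtain ⟨n, hn⟩ := Pool.Agent.W335.EA.exists_support w
      refine ⟨n, fun φ _ h2 => ?_⟩
      exact hn _ (φ.comp inr) inr fun j hj => h2 j hj
    | mul a b iha ihb =>
      obtain ⟨n, hn⟩ := iha
      obtain ⟨m, hm⟩ := ihb
      refine ⟨max n m, fun φ h1 hφ => ?_⟩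
      rw [map_mul, hn φ h1 fun i hi => hφ i (lt_of_lt_of_le hi (le_max_left _ _)),
        hm φ h1 fun i hi => hφ i (lt_of_lt_of_le hi (le_max_right _ _))]
  have hsup' : ∀ A : Finset (Monoid.Coprod Γ (FreeGroup ℕ)), ∃ n : ℕ,
      ∀ φ : Monoid.Coprod Γ (FreeGroup ℕ) →* Monoid.Coprod Γ (FreeGroup ℕ),
      (∀ c, φ (inl c) = inl c) → (∀ i < n, φ (inr (FreeGroup.of i)) = inr (FreeGroup.of i)) →
      ∀ a ∈ A, φ a = a := by
    intro A
    induction A using Finset.induction_on with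
    | empty => exact ⟨0, by simp⟩
    | insert a s _ ih =>
      obtain ⟨n, hn⟩ := ih
      obtain ⟨m, hm⟩ := hsup a
      refine ⟨max n m, fun φ h1 hφ b hb => ?_⟩
      rcases Finset.mem_insert.1 hb with rfl | hb
      · exact hm φ h1 fun i hi => hφ i (lt_of_lt_of_le hi (le_max_right _ _))
      · exact hn φ h1 (fun i hi => hφ i (lt_of_lt_of_le hi (le_max_left _ _))) b hb
  intro A r
  obtain ⟨n, hn⟩ := hsup' A
  refine ⟨fun j => inr (FreeGroup.of (n + j)), fun k => ?_⟩
  let f : ℕ → Monoid.Coprod Γ (FreeGroup ℕ) := fun i => if i < n then inr (FreeGroup.of i) else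
    if h : i - n < r then k ⟨i - n, h⟩ else 1
  let φ : Monoid.Coprod Γ (FreeGroup ℕ) →* Monoid.Coprod Γ (FreeGroup ℕ) :=
    Monoid.Coprod.lift inl (FreeGroup.lift f)
  have h1 : ∀ c, φ (inl c) = inl c := fun c => Monoid.Coprod.lift_apply_inl _ _ _
  have h2 : ∀ i, φ (inr (FreeGroup.of i)) = f i := fun i => by
    show Monoid.Coprod.lift _ _ (Monoid.Coprod.inr (FreeGroup.of i)) = _
    rw [Monoid.Coprod.lift_apply_inr, FreeGroup.lift_apply_of]
  refine ⟨φ, ?_, hn φ h1 fun i hi => by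
    rw [h2]
    show (if i < n then inr (FreeGroup.of i) else _) = _
    rw [if_pos hi], fun j => ?_⟩
  · rintro _ ⟨c, rfl⟩
    exact h1 c
  · rw [h2]
    show (if n + (j : ℕ) < n then _ else _) = _
    rw [if_neg (by omega)]
    have h3 : n + (j : ℕ) - n = j := by omega
    have h4 : n + (j : ℕ) - n < r := by rw [h3]; exact j.2
    rw [dif_pos h4]
    congr 1
    exact Fin.ext h3

end Pool.Agent.Y20.EA
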